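import Mathlib

namespace Pool.Agent.Results.MP_eb9ef7_pr.SelectionsConverge

open MeasureTheory Filter Topology Set Metric
open scoped ENNReal BoundedContinuousFunction

/-- `X` is a random closed set: closed values and Effros measurability. -/
structure IsRandomClosedSet {E : Type*} [TopologicalSpace E] {Ω : Type*} [MeasurableSpace Ω]
    (X : Ω → Set E) : Prop where
  closed : ∀ ω, IsClosed (X ω)
  effros : ∀ G : Set E, IsOpen G → MeasurableSet {ω | (X ω ∩ G).Nonempty}

/-- `ξ` is a selection of `X`: a random element of `E` on the same space, a.s. in `X`. -/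
structure IsSelection {E : Type*} [MeasurableSpace E] {Ω : Type*} [MeasurableSpace Ω]
    (P : Measure Ω) (X : Ω → Set E) (ξ : Ω → E) : Prop where
  meas : Measurable ξ
  mem : ∀ᵐ ω ∂P, ξ ω ∈ X ω

/-- Weak convergence of random closed sets `Xn n → X`: for all `x_1, …, x_k` the vector of the
distances `ρ(x_i, Xn n) ∈ [0, ∞]` (with `ρ(x, ∅) = ∞`) converges in distribution. -/
def WeakConv {E : Type*} [MetricSpace E] {Ω : Type*} [MeasurableSpace Ω] (P : Measure Ω)
    (X : Ω → Set E) {Ωn : ℕ → Type*} [∀ n, MeasurableSpace (Ωn n)] (Pn : ∀ n, Measure (Ωn n))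
    (Xn : ∀ n, Ωn n → Set E) : Prop :=
  ∀ (k : ℕ) (x : Fin k → E) (f : (Fin k → ℝ≥0∞) →ᵇ ℝ),
    Tendsto (fun n => ∫ ω, f (fun i => infEDist (x i) (Xn n ω)) ∂(Pn n)) atTop
      (𝓝 (∫ ω, f (fun i => infEDist (x i) (X ω)) ∂P))

section algorithm

variable {E : Type*} [MetricSpace E] (x : ℕ → E) (r : ℕ → ℝ)

/-- the index path chosen from the distances `d i = ρ(x i, F)` -/
noncomputable def idx (d : ℕ → ℝ≥0∞) : ℕ → ℕ
  | 0 => sInf {i | d i < ENNReal.ofReal (r 0)}
  | (k + 1) => sInf {i | dist (x i) (x (idx d k)) < r k + r (k + 1) ∧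
      d i < ENNReal.ofReal (r (k + 1))}

/-- strict version of the rules defining the path `i` up to time `k` -/
def Strict (k : ℕ) (d : ℕ → ℝ≥0∞) (i : ℕ → ℕ) : Prop :=
  (d (i 0) < ENNReal.ofReal (r 0) ∧ ∀ l < i 0, ENNReal.ofReal (r 0) < d l) ∧
  ∀ j < k, (dist (x (i (j + 1))) (x (i j)) < r j + r (j + 1) ∧
    d (i (j + 1)) < ENNReal.ofReal (r (j + 1)) ∧
    ∀ l < i (j + 1), dist (x l) (x (i j)) < r j + r (j + 1) → ENNReal.ofReal (r (j + 1)) < d l)

lemma sInf_eq_of {S : Set ℕ} {m : ℕ} (hm : m ∈ S) (h : ∀ l < m, l ∉ S) : sInf S = m := by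
  apply le_antisymm (Nat.sInf_le hm)
  by_contra hlt
  push Not at hlt
  exact h _ hlt (Nat.sInf_mem ⟨m, hm⟩)

lemma strict_idx {k : ℕ} {d : ℕ → ℝ≥0∞} {i : ℕ → ℕ} (h : Strict x r k d i) :
    ∀ j ≤ k, idx x r d j = i j := by
  intro j
  induction j with
  | zero =>
    intro _
    exact sInf_eq_of h.1.1 (fun l hl hl' => absurd hl' (not_lt.mpr (h.1.2 l hl).le))
  | succ j ih =>
    intro hj
    have ih' := ih (by omega)
    obtain ⟨h1, h2, h3⟩ := h.2 j (by omega)
    show sInf {i | dist (x i) (x (idx x r d j)) < r j + r (j + 1) ∧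
      d i < ENNReal.ofReal (r (j + 1))} = _
    rw [ih']
    exact sInf_eq_of ⟨h1, h2⟩ (fun l hl hl' => absurd hl'.2 (not_lt.mpr (h3 l hl hl'.1).le))

/-- the open set of distance sequences whose strict path ends in `T` -/
def openSet (k : ℕ) (T : Set ℕ) : Set (ℕ → ℝ≥0∞) := {d | ∃ i : ℕ → ℕ, Strict x r k d i ∧ i k ∈ T}

lemma isOpen_openSet (k : ℕ) (T : Set ℕ) : IsOpen (openSet x r k T) := by
  have : openSet x r k T = ⋃ i ∈ {i : ℕ → ℕ | i k ∈ T}, {d | Strict x r k d i} := by
    ext d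
    simp only [openSet, mem_ofPred_eq, mem_iUnion, exists_prop]
    constructor
    · rintro ⟨i, h1, h2⟩; exact ⟨i, h2, h1⟩
    · rintro ⟨i, h1, h2⟩; exact ⟨i, h2, h1⟩
  rw [this]
  apply isOpen_biUnion
  intro i _
  have ho1 : ∀ (l : ℕ) (c : ℝ≥0∞), IsOpen {d : ℕ → ℝ≥0∞ | d l < c} := fun l c =>
    isOpen_lt (continuous_apply l) continuous_const
  have ho2 : ∀ (l : ℕ) (c : ℝ≥0∞), IsOpen {d : ℕ → ℝ≥0∞ | c < d l} := fun l c =>
    isOpen_lt continuous_const (continuous_apply l)
  have ho3 : ∀ (m : ℕ) (Q : ℕ → Prop) (c : ℝ≥0∞),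
      IsOpen {d : ℕ → ℝ≥0∞ | ∀ l < m, Q l → c < d l} := by
    intro m Q c
    have : {d : ℕ → ℝ≥0∞ | ∀ l < m, Q l → c < d l} =
        ⋂ l ∈ Finset.range m, {d : ℕ → ℝ≥0∞ | Q l → c < d l} := by
      ext d
      simp
    rw [this]
    apply isOpen_biInter_finset
    intro l _
    by_cases hQ : Q l
    · simpa [hQ] using ho2 l c
    · simp [hQ]
  have e : {d | Strict x r k d i} =
      ({d | d (i 0) < ENNReal.ofReal (r 0)} ∩ {d | ∀ l < i 0, True → ENNReal.ofReal (r 0) < d l}) ∩
      ⋂ j ∈ Finset.range k, ({d | dist (x (i (j + 1))) (x (i j)) < r j + r (j + 1)} ∩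
        {d | d (i (j + 1)) < ENNReal.ofReal (r (j + 1))} ∩
        {d | ∀ l < i (j + 1), dist (x l) (x (i j)) < r j + r (j + 1) →
          ENNReal.ofReal (r (j + 1)) < d l}) := by
    ext d
    simp only [Strict, mem_ofPred_eq, mem_inter_iff, mem_iInter, Finset.mem_range, true_implies,
      and_assoc]
  rw [e]
  apply ((ho1 _ _).inter (ho3 _ _ _)).inter
  apply isOpen_biInter_finset
  intro j _
  exact (isOpen_const.inter (ho1 _ _)).inter (ho3 _ _ _)

variable {F : Set E}

lemma edist_lt_of {a b : E} {c : ℝ} (h : dist a b < c) : edist a b < ENNReal.ofReal c := by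
  rw [edist_dist]
  exact (ENNReal.ofReal_lt_ofReal_iff (lt_of_le_of_lt dist_nonneg h)).mpr h

lemma dist_lt_of {a b : E} {c : ℝ} (h : edist a b < ENNReal.ofReal c) : dist a b < c := by
  rw [edist_dist] at h
  exact (ENNReal.ofReal_lt_ofReal_iff_of_nonneg dist_nonneg).mp h

/-- along the path the distances to `F` are below the radii, and the steps are small -/
lemma idx_spec (hx : DenseRange x) (hr : ∀ k, 0 < r k) (hF : F.Nonempty) (k : ℕ) :
    infEDist (x (idx x r (fun i => infEDist (x i) F) k)) F < ENNReal.ofReal (r k) := by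
  induction k with
  | zero =>
    obtain ⟨y, hy⟩ := hF
    obtain ⟨i, hi⟩ := hx.exists_dist_lt y (hr 0)
    have hne : {i | infEDist (x i) F < ENNReal.ofReal (r 0)}.Nonempty :=
      ⟨i, infEDist_lt_iff.mpr ⟨y, hy, edist_lt_of (by rwa [dist_comm])⟩⟩
    exact Nat.sInf_mem hne
  | succ k ih =>
    obtain ⟨y, hy, hyd⟩ := infEDist_lt_iff.mp ih
    obtain ⟨i, hi⟩ := hx.exists_dist_lt y (hr (k + 1))
    have hne : {i | dist (x i) (x (idx x r (fun i => infEDist (x i) F) k)) < r k + r (k + 1) ∧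
        infEDist (x i) F < ENNReal.ofReal (r (k + 1))}.Nonempty := by
      refine ⟨i, ?_, infEDist_lt_iff.mpr ⟨y, hy, edist_lt_of (by rwa [dist_comm])⟩⟩
      have h1 := dist_lt_of hyd
      have h2 := dist_triangle (x i) y (x (idx x r (fun i => infEDist (x i) F) k))
      rw [dist_comm] at hi
      rw [dist_comm] at h1
      linarith
    exact (Nat.sInf_mem hne).2

lemma idx_step (hx : DenseRange x) (hr : ∀ k, 0 < r k) (hF : F.Nonempty) (k : ℕ) :
    dist (x (idx x r (fun i => infEDist (x i) F) (k + 1)))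
      (x (idx x r (fun i => infEDist (x i) F) k)) < r k + r (k + 1) := by
  obtain ⟨y, hy, hyd⟩ := infEDist_lt_iff.mp (idx_spec x r hx hr hF k)
  obtain ⟨i, hi⟩ := hx.exists_dist_lt y (hr (k + 1))
  have hne : {i | dist (x i) (x (idx x r (fun i => infEDist (x i) F) k)) < r k + r (k + 1) ∧
      infEDist (x i) F < ENNReal.ofReal (r (k + 1))}.Nonempty := by
    refine ⟨i, ?_, infEDist_lt_iff.mpr ⟨y, hy, edist_lt_of (by rwa [dist_comm])⟩⟩
    have h1 := dist_lt_of hyd
    have h2 := dist_triangle (x i) y (x (idx x r (fun i => infEDist (x i) F) k))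
    rw [dist_comm] at hi
    rw [dist_comm] at h1
    linarith
  exact (Nat.sInf_mem hne).1

/-- without ties the path is strict -/
lemma strict_of_no_tie (hx : DenseRange x) (hr : ∀ k, 0 < r k) (hF : F.Nonempty)
    (hno : ∀ l j, infEDist (x l) F ≠ ENNReal.ofReal (r j)) (k : ℕ) :
    Strict x r k (fun i => infEDist (x i) F) (idx x r (fun i => infEDist (x i) F)) := by
  refine ⟨⟨idx_spec x r hx hr hF 0, ?_⟩, ?_⟩
  · intro l hl
    have h1 : l ∉ {i | infEDist (x i) F < ENNReal.ofReal (r 0)} := Nat.notMem_of_lt_sInf hl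
    exact lt_of_le_of_ne (not_lt.mp h1) (hno l 0).symm
  · intro j _
    refine ⟨idx_step x r hx hr hF j, idx_spec x r hx hr hF (j + 1), ?_⟩
    intro l hl hlink
    have h1 : l ∉ {i | dist (x i) (x (idx x r (fun i => infEDist (x i) F) j)) < r j + r (j + 1) ∧
        infEDist (x i) F < ENNReal.ofReal (r (j + 1))} := Nat.notMem_of_lt_sInf hl
    have h2 : ¬ infEDist (x l) F < ENNReal.ofReal (r (j + 1)) := fun h => h1 ⟨hlink, h⟩
    exact lt_of_le_of_ne (not_lt.mp h2) (hno l (j + 1)).symm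

end algorithm

section process

variable {E : Type*} [MetricSpace E] {Ω : Type*} [MeasurableSpace Ω] {X : Ω → Set E}

lemma meas_infEDist (hX : IsRandomClosedSet X) (y : E) :
    Measurable (fun ω => infEDist y (X ω)) := by
  apply measurable_of_Iio
  intro c
  have : (fun ω => infEDist y (X ω)) ⁻¹' Iio c = {ω | (X ω ∩ {z | edist y z < c}).Nonempty} := by
    ext ω
    simp only [mem_preimage, mem_Iio, infEDist_lt_iff, mem_ofPred_eq]
    rfl
  rw [this]
  apply hX.effros
  exact isOpen_lt (continuous_const.edist continuous_id) continuous_const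

lemma meas_nonempty (hX : IsRandomClosedSet X) : MeasurableSet {ω | (X ω).Nonempty} := by
  have := hX.effros univ isOpen_univ
  simpa using this

lemma meas_sInf {S : Ω → Set ℕ} (h : ∀ i, MeasurableSet {ω | i ∈ S ω}) :
    Measurable (fun ω => sInf (S ω)) := by
  apply measurable_to_countable'
  intro m
  have : (fun ω => sInf (S ω)) ⁻¹' {m} =
      ({ω | m ∈ S ω} ∩ ⋂ l ∈ Finset.range m, {ω | l ∈ S ω}ᶜ) ∪
      ({ω | m = 0} ∩ ⋂ l : ℕ, {ω | l ∈ S ω}ᶜ) := by
    ext ω
    simp only [mem_preimage, mem_singleton_iff, mem_union, mem_inter_iff, mem_ofPred_eq,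
      mem_iInter, Finset.mem_range, mem_compl_iff]
    constructor
    · intro hm
      by_cases hne : (S ω).Nonempty
      · left
        refine ⟨hm ▸ Nat.sInf_mem hne, fun l hl => ?_⟩
        exact Nat.notMem_of_lt_sInf (hm ▸ hl)
      · right
        rw [not_nonempty_iff_eq_empty] at hne
        rw [hne] at hm ⊢
        refine ⟨by simpa using hm.symm, fun l => by simp⟩
    · rintro (⟨h1, h2⟩ | ⟨h1, h2⟩)
      · exact sInf_eq_of h1 h2
      · have : S ω = ∅ := by
          ext l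
          simp [h2 l]
        rw [this, h1]
        simp
  rw [this]
  apply MeasurableSet.union
  · exact (h m).inter (Finset.measurableSet_biInter _ (fun l _ => (h l).compl))
  · exact (MeasurableSet.const _).inter (MeasurableSet.iInter (fun l => (h l).compl))

lemma meas_idx (x : ℕ → E) (r : ℕ → ℝ) (hX : IsRandomClosedSet X) (k : ℕ) :
    Measurable (fun ω => idx x r (fun i => infEDist (x i) (X ω)) k) := by
  induction k with
  | zero =>
    apply meas_sInf (S := fun ω => {i | infEDist (x i) (X ω) < ENNReal.ofReal (r 0)})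
    intro i
    exact measurableSet_lt (meas_infEDist hX _) measurable_const
  | succ k ih =>
    apply meas_sInf (S := fun ω => {i | dist (x i)
      (x (idx x r (fun i => infEDist (x i) (X ω)) k)) < r k + r (k + 1) ∧
      infEDist (x i) (X ω) < ENNReal.ofReal (r (k + 1))})
    intro i
    have h1 : MeasurableSet {ω | dist (x i)
        (x (idx x r (fun i => infEDist (x i) (X ω)) k)) < r k + r (k + 1)} :=
      ih (MeasurableSet.of_discrete (s := {m : ℕ | dist (x i) (x m) < r k + r (k + 1)}))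
    exact h1.inter (measurableSet_lt (meas_infEDist hX _) measurable_const)

/-- The selection built from the path. -/
lemma exists_sel [CompleteSpace E] [MeasurableSpace E] [BorelSpace E] (x : ℕ → E) (r : ℕ → ℝ)
    (hx : DenseRange x) (hr : ∀ k, 0 < r k) (hr2 : ∀ k, r k ≤ 1 / 2 ^ k)
    (hX : IsRandomClosedSet X) :
    ∃ ξ : Ω → E, Measurable ξ ∧ ∀ ω, (X ω).Nonempty → (ξ ω ∈ X ω ∧
      ∀ k, dist (x (idx x r (fun i => infEDist (x i) (X ω)) k)) (ξ ω) ≤ 4 / 2 ^ k) := by
  classical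
  let J : ℕ → Ω → ℕ := fun k ω =>
    if (X ω).Nonempty then idx x r (fun i => infEDist (x i) (X ω)) k else 0
  have hJm : ∀ k, Measurable (J k) := fun k =>
    Measurable.ite (meas_nonempty hX) (meas_idx x r hX k) measurable_const
  have hstep : ∀ ω, ∀ k, dist (x (J k ω)) (x (J (k + 1) ω)) ≤ (4 / 2) / 2 ^ k := by
    intro ω k
    by_cases hne : (X ω).Nonempty
    · simp only [J, hne, if_true]
      have h1 := idx_step x r hx hr hne k
      rw [dist_comm]
      have h2 := hr2 k
      have h3 := hr2 (k + 1)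
      have h4 : (1 : ℝ) / 2 ^ (k + 1) ≤ 1 / 2 ^ k := by
        apply one_div_le_one_div_of_le (by positivity)
        exact pow_le_pow_right₀ (by norm_num) (by omega)
      calc _ ≤ r k + r (k + 1) := h1.le
        _ ≤ 1 / 2 ^ k + 1 / 2 ^ k := by linarith
        _ = _ := by ring
    · simp only [J, hne, if_false, dist_self]
      positivity
  have hlim : ∀ ω, ∃ y, Tendsto (fun k => x (J k ω)) atTop (𝓝 y) := fun ω =>
    cauchySeq_tendsto_of_complete (cauchySeq_of_le_geometric_two (hstep ω))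
  choose ξ hξ using hlim
  refine ⟨ξ, ?_, ?_⟩
  · apply measurable_of_tendsto_metrizable (f := fun k ω => x (J k ω))
    · intro k
      exact (measurable_from_nat (f := x)).comp (hJm k)
    · rw [tendsto_pi_nhds]
      exact hξ
  · intro ω hne
    have hJ : ∀ k, J k ω = idx x r (fun i => infEDist (x i) (X ω)) k := fun k => by
      simp only [J, hne, if_true]
    have hd : ∀ k, dist (x (idx x r (fun i => infEDist (x i) (X ω)) k)) (ξ ω) ≤ 4 / 2 ^ k := by
      intro k
      rw [← hJ]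
      exact dist_le_of_le_geometric_two_of_tendsto (hstep ω) (hξ ω) k
    refine ⟨?_, hd⟩
    rw [mem_iff_infEDist_zero_of_closed (hX.closed ω)]
    have h1 : Tendsto (fun k => infEDist (x (J k ω)) (X ω)) atTop (𝓝 (infEDist (ξ ω) (X ω))) :=
      (continuous_infEDist.tendsto _).comp (hξ ω)
    have h2 : Tendsto (fun k => ENNReal.ofReal (1 / 2 ^ k)) atTop (𝓝 0) := by
      rw [← ENNReal.ofReal_zero]
      apply ENNReal.tendsto_ofReal
      have := tendsto_pow_atTop_nhds_zero_of_lt_one (r := (1 / 2 : ℝ)) (by norm_num) (by norm_num)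
      simpa using this
    apply le_antisymm _ (zero_le)
    apply le_of_tendsto_of_tendsto' h1 h2
    intro k
    rw [hJ]
    exact (idx_spec x r hx hr hne k).le.trans (ENNReal.ofReal_le_ofReal (hr2 k))

end process

section cylinder

/-- cylinder approximations of an open set of sequences -/
def cyl (A : Set (ℕ → ℝ≥0∞)) (M : ℕ) : Set (Fin M → ℝ≥0∞) :=
  interior {v | ∀ w : ℕ → ℝ≥0∞, (∀ l : Fin M, w l = v l) → w ∈ A}

lemma mem_of_cyl {A : Set (ℕ → ℝ≥0∞)} {M : ℕ} {w : ℕ → ℝ≥0∞}
    (h : (fun l : Fin M => w l) ∈ cyl A M) : w ∈ A :=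
  interior_subset h w (fun _ => rfl)

lemma cyl_mono {A : Set (ℕ → ℝ≥0∞)} {M : ℕ} {w : ℕ → ℝ≥0∞}
    (h : (fun l : Fin M => w l) ∈ cyl A M) : (fun l : Fin (M + 1) => w l) ∈ cyl A (M + 1) := by
  have hc : Continuous (fun (v : Fin (M + 1) → ℝ≥0∞) (l : Fin M) => v l.castSucc) :=
    continuous_pi (fun l => continuous_apply _)
  have ho := (isOpen_interior (s := {v : Fin M → ℝ≥0∞ | ∀ w : ℕ → ℝ≥0∞,
    (∀ l : Fin M, w l = v l) → w ∈ A})).preimage hc
  have hsub : (fun (v : Fin (M + 1) → ℝ≥0∞) (l : Fin M) => v l.castSucc) ⁻¹'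
      (interior {v : Fin M → ℝ≥0∞ | ∀ w : ℕ → ℝ≥0∞, (∀ l : Fin M, w l = v l) → w ∈ A}) ⊆
      {v | ∀ w : ℕ → ℝ≥0∞, (∀ l : Fin (M + 1), w l = v l) → w ∈ A} := by
    intro v hv w hw
    exact interior_subset hv w (fun l => hw l.castSucc)
  exact interior_maximal hsub ho h

lemma exists_cyl {A : Set (ℕ → ℝ≥0∞)} (hA : IsOpen A) {w : ℕ → ℝ≥0∞} (hw : w ∈ A) :
    ∃ M, (fun l : Fin M => w l) ∈ cyl A M := by
  obtain ⟨I, u, hu, hsub⟩ := isOpen_pi_iff.mp hA w hw
  refine ⟨I.sup id + 1, ?_⟩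
  have hlt : ∀ i ∈ I, i < I.sup id + 1 := fun i hi => Nat.lt_succ_of_le (Finset.le_sup (f := id) hi)
  have ho : IsOpen {v : Fin (I.sup id + 1) → ℝ≥0∞ | ∀ i : I, v ⟨i, hlt i i.2⟩ ∈ u i} := by
    have : {v : Fin (I.sup id + 1) → ℝ≥0∞ | ∀ i : I, v ⟨i, hlt i i.2⟩ ∈ u i} =
        ⋂ i : I, {v | v ⟨i, hlt i i.2⟩ ∈ u i} := by
      ext v
      simp
    rw [this]
    apply isOpen_iInter_of_finite
    intro i
    exact (hu i i.2).1.preimage (continuous_apply _)
  refine interior_maximal ?_ ho ?_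
  · intro v hv w' hw'
    apply hsub
    intro i hi
    have := hv ⟨i, hi⟩
    rw [hw' ⟨i, hlt i hi⟩]
    exact this
  · intro i
    exact (hu i i.2).2

variable {E : Type*} [MetricSpace E] {Ω : Type*} [MeasurableSpace Ω] {P : Measure Ω}
  [IsProbabilityMeasure P] {X : Ω → Set E} {Ωn : ℕ → Type*} [∀ n, MeasurableSpace (Ωn n)]
  {Pn : ∀ n, Measure (Ωn n)} [∀ n, IsProbabilityMeasure (Pn n)] {Xn : ∀ n, Ωn n → Set E}

lemma meas_vec {Ω : Type*} [MeasurableSpace Ω] {X : Ω → Set E} (hX : IsRandomClosedSet X)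
    (x : ℕ → E) (M : ℕ) :
    Measurable (fun ω => fun l : Fin M => infEDist (x l) (X ω)) :=
  measurable_pi_lambda _ (fun l => meas_infEDist hX _)

lemma fin_open (hX : IsRandomClosedSet X) (hXn : ∀ n, IsRandomClosedSet (Xn n))
    (hconv : WeakConv P X Pn Xn) (x : ℕ → E) (M : ℕ) {U : Set (Fin M → ℝ≥0∞)} (hU : IsOpen U) :
    P {ω | (fun l : Fin M => infEDist (x l) (X ω)) ∈ U} ≤
      liminf (fun n => Pn n {ω | (fun l : Fin M => infEDist (x l) (Xn n ω)) ∈ U}) atTop := by
  let μ : ProbabilityMeasure (Fin M → ℝ≥0∞) :=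
    ⟨P.map (fun ω => fun l : Fin M => infEDist (x l) (X ω)),
      Measure.isProbabilityMeasure_map (meas_vec hX x M).aemeasurable⟩
  let μs : ℕ → ProbabilityMeasure (Fin M → ℝ≥0∞) := fun n =>
    ⟨(Pn n).map (fun ω => fun l : Fin M => infEDist (x l) (Xn n ω)),
      Measure.isProbabilityMeasure_map (meas_vec (hXn n) x M).aemeasurable⟩
  have hlim : Tendsto μs atTop (𝓝 μ) := by
    rw [ProbabilityMeasure.tendsto_iff_forall_integral_tendsto]
    intro f
    have h := hconv M (fun l => x l) f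
    have e1 : ∫ v, f v ∂(μ : Measure (Fin M → ℝ≥0∞)) =
        ∫ ω, f (fun i => infEDist (x i) (X ω)) ∂P :=
      integral_map (meas_vec hX x M).aemeasurable f.continuous.aestronglyMeasurable
    have e2 : ∀ n, ∫ v, f v ∂(μs n : Measure (Fin M → ℝ≥0∞)) =
        ∫ ω, f (fun i => infEDist (x i) (Xn n ω)) ∂(Pn n) := fun n =>
      integral_map (meas_vec (hXn n) x M).aemeasurable f.continuous.aestronglyMeasurable
    rw [e1]
    simp only [e2]
    exact h
  have key := ProbabilityMeasure.le_liminf_measure_open_of_tendsto hlim hU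
  have e3 : (μ : Measure (Fin M → ℝ≥0∞)) U =
      P {ω | (fun l : Fin M => infEDist (x l) (X ω)) ∈ U} :=
    Measure.map_apply (meas_vec hX x M) hU.measurableSet
  have e4 : ∀ n, (μs n : Measure (Fin M → ℝ≥0∞)) U =
      Pn n {ω | (fun l : Fin M => infEDist (x l) (Xn n ω)) ∈ U} := fun n =>
    Measure.map_apply (meas_vec (hXn n) x M) hU.measurableSet
  rw [e3] at key
  simp only [e4] at key
  exact key

lemma seq_open (hX : IsRandomClosedSet X) (hXn : ∀ n, IsRandomClosedSet (Xn n))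
    (hconv : WeakConv P X Pn Xn) (x : ℕ → E) {A : Set (ℕ → ℝ≥0∞)} (hA : IsOpen A) :
    P {ω | (fun l : ℕ => infEDist (x l) (X ω)) ∈ A} ≤
      liminf (fun n => Pn n {ω | (fun l : ℕ => infEDist (x l) (Xn n ω)) ∈ A}) atTop := by
  have hU : {ω | (fun l : ℕ => infEDist (x l) (X ω)) ∈ A} =
      ⋃ M, {ω | (fun l : Fin M => infEDist (x l) (X ω)) ∈ cyl A M} := by
    ext ω
    simp only [mem_ofPred_eq, mem_iUnion]
    constructor
    · intro h
      exact exists_cyl hA h
    · rintro ⟨M, hM⟩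
      exact mem_of_cyl (w := fun l : ℕ => infEDist (x l) (X ω)) hM
  have hmono : Monotone (fun M => {ω | (fun l : Fin M => infEDist (x l) (X ω)) ∈ cyl A M}) := by
    apply monotone_nat_of_le_succ
    intro M ω h
    exact cyl_mono (w := fun l : ℕ => infEDist (x l) (X ω)) h
  rw [hU, hmono.measure_iUnion]
  apply iSup_le
  intro M
  refine (fin_open hX hXn hconv x M isOpen_interior).trans ?_
  refine liminf_le_liminf ?_
  filter_upwards with n
  apply measure_mono
  intro ω h
  exact mem_of_cyl (w := fun l : ℕ => infEDist (x l) (Xn n ω)) h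

end cylinder

/-- Radii avoiding all atoms. -/
lemma exists_radii {E : Type*} [MetricSpace E] {Ω : Type*} [MeasurableSpace Ω] (P : Measure Ω)
    [IsProbabilityMeasure P] {X : Ω → Set E} (hX : IsRandomClosedSet X) (x : ℕ → E) :
    ∃ r : ℕ → ℝ, (∀ k, 0 < r k) ∧ (∀ k, r k ≤ 1 / 2 ^ k) ∧
      ∀ l j, P {ω | infEDist (x l) (X ω) = ENNReal.ofReal (r j)} = 0 := by
  have hc : ∀ l, {t : ℝ≥0∞ | 0 < P {ω | infEDist (x l) (X ω) = t}}.Countable := fun l =>
    Measure.countable_meas_level_set_pos (meas_infEDist hX (x l))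
  have hbad : (⋃ l, {t : ℝ≥0∞ | 0 < P {ω | infEDist (x l) (X ω) = t}}).Countable :=
    countable_iUnion hc
  have hbad2 : {t : ℝ | 0 < t ∧ ENNReal.ofReal t ∈
      ⋃ l, {t : ℝ≥0∞ | 0 < P {ω | infEDist (x l) (X ω) = t}}}.Countable := by
    apply Set.MapsTo.countable_of_injOn (f := ENNReal.ofReal) (t := _) (fun t ht => ht.2) _ hbad
    intro s hs t ht hst
    exact (ENNReal.ofReal_eq_ofReal_iff hs.1.le ht.1.le).mp hst
  have hdense := hbad2.dense_compl ℝ
  have hex : ∀ k : ℕ, ∃ t : ℝ, 0 < t ∧ t < 1 / 2 ^ k ∧ t ∉ {t : ℝ | 0 < t ∧ ENNReal.ofReal t ∈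
      ⋃ l, {t : ℝ≥0∞ | 0 < P {ω | infEDist (x l) (X ω) = t}}} := by
    intro k
    obtain ⟨t, ht1, ht2⟩ := hdense.exists_between (show (0 : ℝ) < 1 / 2 ^ k by positivity)
    exact ⟨t, ht2.1, ht2.2, ht1⟩
  choose r h1 h2 h3 using hex
  refine ⟨r, h1, fun k => (h2 k).le, fun l j => ?_⟩
  by_contra hne
  apply h3 j
  refine ⟨h1 j, mem_iUnion.mpr ⟨l, ?_⟩⟩
  exact pos_iff_ne_zero.mpr hne

/-- Weakly convergent, almost surely non-empty random closed sets in a complete separable metric
space (in particular in a separable Banach space) admit weakly convergent selections. -/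
theorem result {E : Type*} [MetricSpace E] [CompleteSpace E] [TopologicalSpace.SeparableSpace E]
    [MeasurableSpace E] [BorelSpace E] {Ω : Type*} [MeasurableSpace Ω] (P : Measure Ω)
    [IsProbabilityMeasure P] (X : Ω → Set E) (Ωn : ℕ → Type*) [∀ n, MeasurableSpace (Ωn n)]
    (Pn : ∀ n, Measure (Ωn n)) [∀ n, IsProbabilityMeasure (Pn n)] (Xn : ∀ n, Ωn n → Set E)
    (hX : IsRandomClosedSet X) (hXn : ∀ n, IsRandomClosedSet (Xn n))
    (hne : ∀ᵐ ω ∂P, (X ω).Nonempty) (hnen : ∀ n, ∀ᵐ ω ∂(Pn n), (Xn n ω).Nonempty)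
    (hconv : WeakConv P X Pn Xn) :
    ∃ (ξn : ∀ n, Ωn n → E) (ξ : Ω → E), (∀ n, IsSelection (Pn n) (Xn n) (ξn n)) ∧
      IsSelection P X ξ ∧
      ∀ g : E →ᵇ ℝ, Tendsto (fun n => ∫ ω, g (ξn n ω) ∂(Pn n)) atTop (𝓝 (∫ ω, g (ξ ω) ∂P)) := by
  obtain ⟨ω0, y0, hy0⟩ := hne.exists
  have : Nonempty E := ⟨y0⟩
  let x : ℕ → E := TopologicalSpace.denseSeq E
  have hx : DenseRange x := TopologicalSpace.denseRange_denseSeq E
  obtain ⟨r, hr1, hr2, hr3⟩ := exists_radii P hX x
  obtain ⟨ξ, hξm, hξ⟩ := exists_sel x r hx hr1 hr2 hX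
  choose ξn hξnm hξn using fun n => exists_sel x r hx hr1 hr2 (hXn n)
  refine ⟨ξn, ξ, fun n => ⟨hξnm n, ?_⟩, ⟨hξm, ?_⟩, ?_⟩
  · filter_upwards [hnen n] with ω h using (hξn n ω h).1
  · filter_upwards [hne] with ω h using (hξ ω h).1
  · have hopen : ∀ G : Set E, IsOpen G → P {ω | ξ ω ∈ G} ≤
        liminf (fun n => Pn n {ω | ξn n ω ∈ G}) atTop := by
      intro G hG
      let T : ℕ → Set ℕ := fun k => {m | closedBall (x m) (4 / 2 ^ k) ⊆ G}
      have hn : ∀ k n, Pn n {ω | (fun l : ℕ => infEDist (x l) (Xn n ω)) ∈ openSet x r k (T k)} ≤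
          Pn n {ω | ξn n ω ∈ G} := by
        intro k n
        apply measure_mono_ae
        filter_upwards [hnen n] with ω hω
        rintro ⟨i, hi, hT⟩
        have h1 := strict_idx x r hi k le_rfl
        have h2 := (hξn n ω hω).2 k
        apply hT
        rw [mem_closedBall, dist_comm, ← h1]
        exact h2
      have hk : ∀ k, P {ω | idx x r (fun i => infEDist (x i) (X ω)) k ∈ T k} ≤
          liminf (fun n => Pn n {ω | ξn n ω ∈ G}) atTop := by
        intro k
        have h1 : P {ω | idx x r (fun i => infEDist (x i) (X ω)) k ∈ T k} ≤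
            P {ω | (fun l : ℕ => infEDist (x l) (X ω)) ∈ openSet x r k (T k)} := by
          apply measure_mono_ae
          have hno : ∀ᵐ ω ∂P, ∀ l j, infEDist (x l) (X ω) ≠ ENNReal.ofReal (r j) := by
            rw [ae_all_iff]
            intro l
            rw [ae_all_iff]
            intro j
            exact measure_eq_zero_iff_ae_notMem.mp (hr3 l j)
          filter_upwards [hne, hno] with ω hω1 hω2 hω3
          exact ⟨_, strict_of_no_tie x r hx hr1 hω1 hω2 k, hω3⟩
        refine h1.trans ((seq_open hX hXn hconv x (isOpen_openSet x r k (T k))).trans ?_)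
        refine liminf_le_liminf ?_
        filter_upwards with n using hn k n
      let B : ℕ → Set Ω := fun K => {ω | ∀ k ≥ K, idx x r (fun i => infEDist (x i) (X ω)) k ∈ T k}
      have hBmono : Monotone B := fun K K' h ω hω k hk => hω k (h.trans hk)
      have hsub : P {ω | ξ ω ∈ G} ≤ P (⋃ K, B K) := by
        apply measure_mono_ae
        filter_upwards [hne] with ω hω1 hω2
        obtain ⟨ε, hε, hball⟩ := Metric.isOpen_iff.mp hG _ hω2
        have hlim : Tendsto (fun k : ℕ => (8 : ℝ) / 2 ^ k) atTop (𝓝 0) := by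
          have := (tendsto_pow_atTop_nhds_zero_of_lt_one (r := (1 / 2 : ℝ)) (by norm_num)
            (by norm_num)).const_mul 8
          simpa [div_eq_mul_inv] using this
        obtain ⟨K, hK⟩ := (eventually_atTop.mp (hlim.eventually (gt_mem_nhds hε)))
        refine mem_iUnion.mpr ⟨K, fun k hk => ?_⟩
        intro z hz
        apply hball
        rw [mem_ball]
        rw [mem_closedBall] at hz
        have h1 := (hξ ω hω1).2 k
        have h2 := dist_triangle z (x (idx x r (fun i => infEDist (x i) (X ω)) k)) (ξ ω)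
        have h3 := hK k hk
        have h4 : (8 : ℝ) / 2 ^ k = 4 / 2 ^ k + 4 / 2 ^ k := by ring
        linarith
      refine hsub.trans ?_
      rw [hBmono.measure_iUnion]
      apply iSup_le
      intro K
      refine le_trans (measure_mono ?_) (hk K)
      intro ω hω
      exact hω K le_rfl
    let μ : ProbabilityMeasure E := ⟨P.map ξ, Measure.isProbabilityMeasure_map hξm.aemeasurable⟩
    let μs : ℕ → ProbabilityMeasure E := fun n =>
      ⟨(Pn n).map (ξn n), Measure.isProbabilityMeasure_map (hξnm n).aemeasurable⟩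
    have hlim : Tendsto μs atTop (𝓝 μ) := by
      apply tendsto_of_forall_isOpen_le_liminf'
      intro G hG
      have e1 : (μ : Measure E) G = P {ω | ξ ω ∈ G} := Measure.map_apply hξm hG.measurableSet
      have e2 : ∀ n, (μs n : Measure E) G = Pn n {ω | ξn n ω ∈ G} := fun n =>
        Measure.map_apply (hξnm n) hG.measurableSet
      have e3 : liminf (fun n => (μs n : Measure E) G) atTop =
          liminf (fun n => Pn n {ω | ξn n ω ∈ G}) atTop :=
        liminf_congr (Eventually.of_forall e2)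
      exact (le_of_eq e1).trans ((hopen G hG).trans (le_of_eq e3.symm))
    intro g
    have h := (ProbabilityMeasure.tendsto_iff_forall_integral_tendsto.mp hlim) g
    have e1 : ∫ v, g v ∂(μ : Measure E) = ∫ ω, g (ξ ω) ∂P :=
      integral_map hξm.aemeasurable g.continuous.aestronglyMeasurable
    have e2 : ∀ n, ∫ v, g v ∂(μs n : Measure E) = ∫ ω, g (ξn n ω) ∂(Pn n) := fun n =>
      integral_map (hξnm n).aemeasurable g.continuous.aestronglyMeasurable
    rw [e1] at h
    simp only [e2] at h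
    exact h

end Pool.Agent.Results.MP_eb9ef7_pr.SelectionsConverge
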